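import Mathlib

/-!
# Strings with `σ` letters and length `n` with at least `σ n / 16` non-equivalent parameterized squares

The letter at place `j` is the pair `(j mod m, c j)` with a bit `c j`, where `2 m ≤ σ`. Blocks of at most
`m` consecutive letters have no repeated letter, so any two of them of equal length are parameterized
equivalent and every factor of even length `2 l ≤ 2 m` is a parameterized square. The bits are chosen
such that `c j ≠ c (j + m)` happens exactly when `j + m` is a triangular number; this makes all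
factors of the same length `2 l ≥ 3 m / 2` pairwise non-equivalent.
-/

set_option autoImplicit false

namespace Pool.Agent.Results.MP_435f72_co.ManyParamSquares

/-- Parameterized equivalence of strings over the alphabet `α`: some bijection of the alphabet
sends `x` to `y` letter by letter (so `x` and `y` have equal length). -/
def PEquiv {α : Type} (x y : List α) : Prop := ∃ f : Equiv.Perm α, x.map f = y

/-- Parameterized equivalence is an equivalence relation. -/
def pSetoid (α : Type) : Setoid (List α) where
  r := PEquiv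
  iseqv :=
    { refl := fun x => ⟨Equiv.refl α, by simp⟩
      symm := by
        rintro x y ⟨f, rfl⟩
        exact ⟨f.symm, by simp⟩
      trans := by
        rintro x y z ⟨f, rfl⟩ ⟨g, rfl⟩
        exact ⟨f.trans g, by simp⟩ }

/-- `PS s`: the number of classes, for parameterized equivalence, of the parameterized squares
`x y` (`x` nonempty, `x ≈ y`) that are factors of `s`. -/
noncomputable def PS {α : Type} (s : List α) : ℕ :=
  {c : Quotient (pSetoid α) | ∃ x y : List α, x ≠ [] ∧ PEquiv x y ∧ (x ++ y) <:+: s ∧
    Quotient.mk (pSetoid α) (x ++ y) = c}.ncard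

/-- `PS' s`: the same count restricted to the parameterized squares `x y` with `x ≠ y`. -/
noncomputable def PS' {α : Type} (s : List α) : ℕ :=
  {c : Quotient (pSetoid α) | ∃ x y : List α, x ≠ [] ∧ PEquiv x y ∧ x ≠ y ∧ (x ++ y) <:+: s ∧
    Quotient.mk (pSetoid α) (x ++ y) = c}.ncard

/-! ## Finiteness and comparison -/

theorem finite_PS {α : Type} (s : List α) :
    {c : Quotient (pSetoid α) | ∃ x y : List α, x ≠ [] ∧ PEquiv x y ∧ (x ++ y) <:+: s ∧
      Quotient.mk (pSetoid α) (x ++ y) = c}.Finite := by
  classical
  apply Set.Finite.subset ((s.sublists.toFinset.finite_toSet).image (Quotient.mk (pSetoid α)))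
  rintro c ⟨x, y, _, _, h, rfl⟩
  refine ⟨x ++ y, ?_, rfl⟩
  rw [Finset.mem_coe, List.mem_toFinset, List.mem_sublists]
  exact h.sublist

theorem PS'_le_PS {α : Type} (s : List α) : PS' s ≤ PS s := by
  apply Set.ncard_le_ncard _ (finite_PS s)
  rintro c ⟨x, y, h1, h2, _, h4, h5⟩
  exact ⟨x, y, h1, h2, h4, h5⟩

/-! ## Windows -/

/-- the factor of length `k` at place `i` of the infinite word `f` -/
def win {α : Type} (f : ℕ → α) (i k : ℕ) : List α := (List.range k).map (fun a => f (i + a))

theorem win_length {α : Type} (f : ℕ → α) (i k : ℕ) : (win f i k).length = k := by simp [win]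

theorem win_append {α : Type} (f : ℕ → α) (i k l : ℕ) :
    win f i k ++ win f (i + k) l = win f i (k + l) := by
  simp only [win, List.range_add, List.map_append, List.map_map]
  congr 1
  apply List.map_congr_left
  intro a _
  simp [Function.comp, Nat.add_assoc]

theorem win_infix {α : Type} (f : ℕ → α) (i k n : ℕ) (h : i + k ≤ n) :
    win f i k <:+: win f 0 n := by
  refine ⟨win f 0 i, win f (i + k) (n - (i + k)), ?_⟩
  have h1 := win_append f 0 i k
  rw [Nat.zero_add] at h1
  rw [h1]
  have h2 := win_append f 0 (i + k) (n - (i + k))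
  rw [Nat.zero_add] at h2
  rw [h2]
  congr 1
  omega

theorem perm_of_injOn {α : Type} [Finite α] (f : ℕ → α) (i j l : ℕ)
    (hi : ∀ a b, a < l → b < l → f (i + a) = f (i + b) → a = b)
    (hj : ∀ a b, a < l → b < l → f (j + a) = f (j + b) → a = b) :
    PEquiv (win f i l) (win f j l) := by
  classical
  have hgi : Function.Injective (fun a : Fin l => f (i + a)) := by
    intro a b h
    exact Fin.ext (hi a b a.isLt b.isLt h)
  have hgj : Function.Injective (fun a : Fin l => f (j + a)) := by
    intro a b h
    exact Fin.ext (hj a b a.isLt b.isLt h)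
  let e : {x // x ∈ Set.range (fun a : Fin l => f (i + a))} ≃
      {x // x ∈ Set.range (fun a : Fin l => f (j + a))} :=
    (Equiv.ofInjective _ hgi).symm.trans (Equiv.ofInjective _ hgj)
  refine ⟨e.extendSubtype, ?_⟩
  simp only [win, List.map_map]
  apply List.map_congr_left
  intro a ha
  rw [List.mem_range] at ha
  have hmem : f (i + a) ∈ Set.range (fun a : Fin l => f (i + a)) := ⟨⟨a, ha⟩, rfl⟩
  simp only [Function.comp]
  rw [Equiv.extendSubtype_apply_of_mem e _ hmem]
  have : (Equiv.ofInjective _ hgi).symm ⟨f (i + a), hmem⟩ = (⟨a, ha⟩ : Fin l) := by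
    rw [Equiv.symm_apply_eq]
    rfl
  simp only [e, Equiv.trans_apply, this]
  rfl

/-- equivalent windows have the same pattern of repetitions -/
theorem pattern {α : Type} (f : ℕ → α) (i j k : ℕ) (h : PEquiv (win f i k) (win f j k))
    (a b : ℕ) (ha : a < k) (hb : b < k) : f (i + a) = f (i + b) ↔ f (j + a) = f (j + b) := by
  obtain ⟨g, hg⟩ := h
  have key : ∀ a, a < k → g (f (i + a)) = f (j + a) := by
    intro a ha
    have h1 : ((win f i k).map g)[a]? = (win f j k)[a]? := by rw [hg]
    simp only [win, List.map_map] at h1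
    rw [List.getElem?_map, List.getElem?_map, List.getElem?_range ha] at h1
    simpa using h1
  rw [← key a ha, ← key b hb]
  exact g.injective.eq_iff.symm

/-! ## The bits -/

/-- `d j = 1` exactly when `j` is a triangular number -/
def d (j : ℕ) : ℕ := if ∃ k ≤ j, k * (k + 1) = 2 * j then 1 else 0

theorem d_eq_one (j : ℕ) : d j = 1 ↔ ∃ k, k * (k + 1) = 2 * j := by
  unfold d
  split_ifs with h
  · obtain ⟨k, _, hk⟩ := h
    simp only [true_iff]
    exact ⟨k, hk⟩
  · simp only [false_iff]
    rintro ⟨k, hk⟩
    apply h
    refine ⟨k, ?_, hk⟩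
    rcases Nat.eq_zero_or_pos k with h0 | h0
    · omega
    · nlinarith

theorem d_le (j : ℕ) : d j ≤ 1 := by
  unfold d; split_ifs <;> omega

/-- the bit of the letter at place `j` -/
def c (m j : ℕ) : ℕ := (∑ r ∈ Finset.range (j / m), d (j - r * m)) % 2

theorem c_lt (m j : ℕ) : c m j < 2 := Nat.mod_lt _ (by norm_num)

theorem c_add (m j : ℕ) (hm : 0 < m) : c m (j + m) = (c m j + d (j + m)) % 2 := by
  unfold c
  rw [Nat.add_div_right j hm, Finset.sum_range_succ']
  have : ∀ r ∈ Finset.range (j / m), d (j + m - (r + 1) * m) = d (j - r * m) := by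
    intro r _
    congr 1
    rw [Nat.add_mul, Nat.one_mul]
    omega
  rw [Finset.sum_congr rfl this]
  simp only [Nat.zero_mul, Nat.sub_zero]
  omega

theorem c_eq_iff (m j : ℕ) (hm : 0 < m) : c m j = c m (j + m) ↔ d (j + m) = 0 := by
  have h1 := c_add m j hm
  have h2 := c_lt m j
  have h3 := d_le (j + m)
  omega

/-- the letter at place `j` as a natural number below `2 m` -/
def letter (m j : ℕ) : ℕ := 2 * (j % m) + c m j

theorem letter_lt (m j : ℕ) (hm : 0 < m) : letter m j < 2 * m := by
  have h1 := c_lt m j
  have h2 := Nat.mod_lt j hm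
  unfold letter
  omega

theorem letter_eq (m j k : ℕ) : letter m j = letter m k ↔ j % m = k % m ∧ c m j = c m k := by
  have h1 := c_lt m j
  have h2 := c_lt m k
  unfold letter
  omega

theorem letter_inj (m i a b : ℕ) (ha : a < m) (hb : b < m)
    (h : letter m (i + a) = letter m (i + b)) : a = b := by
  have h1 := ((letter_eq m _ _).1 h).1
  have h2 : a ≡ b [MOD m] := Nat.ModEq.add_left_cancel' i h1
  have h3 := Nat.ModEq.eq_of_lt_of_lt h2 ha hb
  exact h3

theorem letter_shift (m j : ℕ) (hm : 0 < m) : letter m j = letter m (j + m) ↔ d (j + m) = 0 := by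
  rw [letter_eq]
  simp only [Nat.add_mod_right, true_and]
  exact c_eq_iff m j hm

/-! ## Windows of the triangular sequence are distinct -/

/-- the `k`-th triangular number -/
def T (k : ℕ) : ℕ := k * (k + 1) / 2

theorem two_T (k : ℕ) : 2 * T k = k * (k + 1) := by
  unfold T
  have : 2 ∣ k * (k + 1) := (Nat.even_mul_succ_self k).two_dvd
  omega

theorem T_succ (k : ℕ) : T (k + 1) = T k + k + 1 := by
  have h1 := two_T k
  have h2 := two_T (k + 1)
  nlinarith

theorem T_mono {a b : ℕ} (h : a ≤ b) : T a ≤ T b := by
  have h1 := two_T a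
  have h2 := two_T b
  nlinarith

theorem T_strict {a b : ℕ} (h : a < b) : T a < T b := by
  have h1 := two_T a
  have h2 := two_T b
  nlinarith

theorem d_T (k : ℕ) : d (T k) = 1 := by
  rw [d_eq_one]
  exact ⟨k, (two_T k).symm⟩

theorem d_one_T (j : ℕ) (h : d j = 1) : ∃ k, T k = j := by
  rw [d_eq_one] at h
  obtain ⟨k, hk⟩ := h
  refine ⟨k, ?_⟩
  have := two_T k
  omega

/-- the first triangular number at or after `p` -/
theorem first_T (p : ℕ) : ∃ k, p ≤ T k ∧ ∀ k', p ≤ T k' → k ≤ k' := by
  classical
  have hex : ∃ k, p ≤ T k := ⟨p, by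
    have := two_T p
    rcases Nat.eq_zero_or_pos p with h | h
    · subst h; simp
    · nlinarith⟩
  exact ⟨Nat.find hex, Nat.find_spec hex, fun k' h => Nat.find_min' hex h⟩

/-- If the windows of `d` of length `t` at `p` and `q` agree, where `t` is large compared with
the square root of `p` and `q`, then `p = q`. -/
theorem d_windows (p q t g : ℕ) (hp : p ≤ T g) (hq : q ≤ T g) (ht : 2 * g + 2 ≤ t)
    (h : ∀ a, a < t → d (p + a) = d (q + a)) : p = q := by
  -- one-sided comparison
  have main : ∀ p q : ℕ, p ≤ T g → q ≤ T g → (∀ a, a < t → d (p + a) = d (q + a)) →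
      ∃ k k', p ≤ T k ∧ T k - p = T k' - q ∧ q ≤ T k' ∧ k ≤ g ∧ k' ≤ g ∧ k = k' := by
    intro p q hp hq h
    obtain ⟨k, hk, hkm⟩ := first_T p
    obtain ⟨k', hk', hkm'⟩ := first_T q
    have hkg : k ≤ g := hkm g hp
    have hkg' : k' ≤ g := hkm' g hq
    -- distance of the first triangular number from p is at most g
    have hdist : T k ≤ p + g := by
      rcases Nat.eq_zero_or_pos k with h0 | h0
      · subst h0
        have : T 0 = 0 := rfl
        omega
      · obtain ⟨k1, rfl⟩ : ∃ k1, k = k1 + 1 := ⟨k - 1, by omega⟩
        have h1 : ¬ p ≤ T k1 := fun hh => by have := hkm k1 hh; omega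
        have := T_succ k1
        omega
    have hdist' : T k' ≤ q + g := by
      rcases Nat.eq_zero_or_pos k' with h0 | h0
      · subst h0
        have : T 0 = 0 := rfl
        omega
      · obtain ⟨k1, rfl⟩ : ∃ k1, k' = k1 + 1 := ⟨k' - 1, by omega⟩
        have h1 : ¬ q ≤ T k1 := fun hh => by have := hkm' k1 hh; omega
        have := T_succ k1
        omega
    -- equal offsets
    have hoff : T k - p = T k' - q := by
      have h1 : d (q + (T k - p)) = 1 := by
        rw [← h (T k - p) (by omega)]
        have : p + (T k - p) = T k := by omega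
        rw [this]
        exact d_T k
      have h2 : d (p + (T k' - q)) = 1 := by
        rw [h (T k' - q) (by omega)]
        have : q + (T k' - q) = T k' := by omega
        rw [this]
        exact d_T k'
      obtain ⟨x, hx⟩ := d_one_T _ h1
      obtain ⟨y, hy⟩ := d_one_T _ h2
      have hx1 : k' ≤ x := hkm' x (by omega)
      have hy1 : k ≤ y := hkm y (by omega)
      have hx2 := T_mono hx1
      have hy2 := T_mono hy1
      omega
    refine ⟨k, k', hk, hoff, hk', hkg, hkg', ?_⟩
    -- equal second offsets
    have h1 : d (q + (T (k + 1) - p)) = 1 := by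
      have hs := T_succ k
      rw [← h (T (k + 1) - p) (by omega)]
      have : p + (T (k + 1) - p) = T (k + 1) := by omega
      rw [this]
      exact d_T _
    have h2 : d (p + (T (k' + 1) - q)) = 1 := by
      have hs := T_succ k'
      rw [h (T (k' + 1) - q) (by omega)]
      have : q + (T (k' + 1) - q) = T (k' + 1) := by omega
      rw [this]
      exact d_T _
    obtain ⟨x, hx⟩ := d_one_T _ h1
    obtain ⟨y, hy⟩ := d_one_T _ h2
    have hs := T_succ k
    have hs' := T_succ k'
    have hx1 : k' + 1 ≤ x := by
      by_contra hcon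
      have := T_mono (show x ≤ k' by omega)
      omega
    have hy1 : k + 1 ≤ y := by
      by_contra hcon
      have := T_mono (show y ≤ k by omega)
      omega
    have hx2 := T_mono hx1
    have hy2 := T_mono hy1
    omega
  obtain ⟨k, k', h1, h2, h3, h4, h5, h6⟩ := main p q hp hq h
  subst h6
  omega

/-! ## The theorem -/

theorem lower : ∀ σ : ℕ, 1200 ≤ σ → ∃ s : List (Fin σ), s ≠ [] ∧
    σ * s.length ≤ 16 * PS' s ∧ PS' s ≤ PS s := by
  intro σ hσ
  -- parameters
  obtain ⟨q, hq⟩ : ∃ q, q = σ / 16 := ⟨_, rfl⟩
  obtain ⟨m, hm⟩ : ∃ m, m = 8 * q := ⟨_, rfl⟩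
  have hq1 : 75 ≤ q := by omega
  have hm0 : 0 < m := by omega
  have h2m : 2 * m ≤ σ := by omega
  have hσ0 : σ ≤ 16 * q + 15 := by omega
  obtain ⟨n, hn⟩ : ∃ n, n = 64 * q := ⟨_, rfl⟩
  let f : ℕ → Fin σ := fun j => ⟨letter m j, lt_of_lt_of_le (letter_lt m j hm0) h2m⟩
  have hf : ∀ j k, f j = f k ↔ letter m j = letter m k := by
    intro j k
    simp only [f, Fin.mk.injEq]
  refine ⟨win f 0 n, ?_, ?_, PS'_le_PS _⟩
  · intro h
    have := win_length f 0 n
    rw [h] at this
    simp at this
    omega
  rw [win_length]
  -- the classes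
  let P : Finset (ℕ × ℕ) := (Finset.Ico (6 * q) (8 * q)) ×ˢ (Finset.range (48 * q))
  have hP : P.card = (2 * q) * (48 * q) := by
    simp only [P, Finset.card_product, Nat.card_Ico, Finset.card_range]
    congr 1
    omega
  have hle : P.card ≤ PS' (win f 0 n) := by
    unfold PS'
    rw [← Set.ncard_coe_finset]
    refine Set.ncard_le_ncard_of_injOn
      (fun x : ℕ × ℕ => Quotient.mk (pSetoid (Fin σ)) (win f x.2 (x.1 + x.1))) ?_ ?_ ?_
    · rintro ⟨l, i⟩ hx
      simp only [P, Finset.coe_product, Set.mem_prod, Finset.mem_coe, Finset.mem_Ico,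
        Finset.mem_range] at hx
      obtain ⟨⟨hl1, hl2⟩, hi⟩ := hx
      refine ⟨win f i l, win f (i + l) l, ?_, ?_, ?_, ?_, ?_⟩
      · intro h
        have := win_length f i l
        rw [h] at this
        simp at this
        omega
      · apply perm_of_injOn
        · intro a b ha hb h
          rw [hf] at h
          exact letter_inj m i a b (by omega) (by omega) h
        · intro a b ha hb h
          rw [hf] at h
          exact letter_inj m (i + l) a b (by omega) (by omega) h
      · intro h
        have h1 : (win f i l)[0]? = (win f (i + l) l)[0]? := by rw [h]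
        simp only [win, List.getElem?_map] at h1
        rw [List.getElem?_range (by omega)] at h1
        simp only [Option.map_some, Nat.add_zero, Option.some.injEq] at h1
        rw [hf] at h1
        have h2 := letter_inj m i 0 l (by omega) (by omega) (by simpa using h1)
        omega
      · rw [win_append]
        exact win_infix f i (l + l) n (by omega)
      · simp only [win_append]
    · rintro ⟨l, i⟩ hx ⟨l', i'⟩ hx' h
      simp only [P, Finset.coe_product, Set.mem_prod, Finset.mem_coe, Finset.mem_Ico,
        Finset.mem_range] at hx hx'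
      obtain ⟨⟨hl1, hl2⟩, hi⟩ := hx
      obtain ⟨⟨hl1', hl2'⟩, hi'⟩ := hx'
      have h1 : PEquiv (win f i (l + l)) (win f i' (l' + l')) := Quotient.exact h
      have hlen : l = l' := by
        obtain ⟨g, hg⟩ := h1
        have := congrArg List.length hg
        rw [List.length_map, win_length, win_length] at this
        omega
      subst hlen
      have hpat := pattern f i i' (l + l) h1
      have hd : ∀ a, a < 4 * q → d (i + m + a) = d (i' + m + a) := by
        intro a ha
        have h2 := hpat a (a + m) (by omega) (by omega)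
        rw [hf, hf] at h2
        have e1 : i + (a + m) = i + a + m := by ring
        have e2 : i' + (a + m) = i' + a + m := by ring
        rw [e1, e2, letter_shift m _ hm0, letter_shift m _ hm0] at h2
        have e3 : i + m + a = i + a + m := by ring
        have e4 : i' + m + a = i' + a + m := by ring
        rw [e3, e4]
        have h3 := d_le (i + a + m)
        have h4 := d_le (i' + a + m)
        omega
      -- the bound on the places
      obtain ⟨g, hg⟩ : ∃ g, g = 2 * q - 1 := ⟨_, rfl⟩
      have hTg : 56 * q ≤ T g := by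
        have h2T := two_T g
        have : g * (g + 1) = (2 * q - 1) * (2 * q) := by
          subst hg
          congr 1
          omega
        have h3 : (149 : ℕ) * (2 * q) ≤ (2 * q - 1) * (2 * q) :=
          Nat.mul_le_mul_right _ (by omega)
        omega
      have := d_windows (i + m) (i' + m) (4 * q) g (by omega) (by omega) (by omega) hd
      have hii : i = i' := by omega
      subst hii
      rfl
    · apply Set.Finite.subset (finite_PS (win f 0 n))
      rintro c ⟨x, y, h1, h2, _, h4, h5⟩
      exact ⟨x, y, h1, h2, h4, h5⟩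
  calc σ * n ≤ (16 * q + 15) * (64 * q) := by subst hn; exact Nat.mul_le_mul_right _ hσ0
    _ ≤ 16 * ((2 * q) * (48 * q)) := by nlinarith
    _ = 16 * P.card := by rw [hP]
    _ ≤ 16 * PS' (win f 0 n) := Nat.mul_le_mul_left _ hle

/-- It is not true that every nonempty string `s` has `PS s < |s|`. In fact, for every `σ ≥ 1200`
there is a nonempty string `s` over an alphabet with `σ` letters such that `PS' s ≥ σ |s| / 16`,
hence also `PS s ≥ σ |s| / 16 ≥ 75 |s|`. -/
theorem result :
    (¬ ∀ (σ : ℕ) (s : List (Fin σ)), s ≠ [] → PS s < s.length) ∧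
    (∀ σ : ℕ, 1200 ≤ σ → ∃ s : List (Fin σ), s ≠ [] ∧
      σ * s.length ≤ 16 * PS' s ∧ PS' s ≤ PS s) := by
  refine ⟨?_, lower⟩
  intro h
  obtain ⟨s, hs, h1, h2⟩ := lower 1200 le_rfl
  have h3 := h 1200 s hs
  omega

end Pool.Agent.Results.MP_435f72_co.ManyParamSquares
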